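import Pool.Agent.Lib.MP_338784_al.Two

namespace Pool.Agent.Results.MP_338784_al.RankPlusTwo

open RankStr Finset

/-- Let `G` be primitive, `f` any map and `r > 1` the least rank in the semigroup `S` generated by
`f` and `G`. If some `h` in `S` has rank `r + 2`, then `r ≥ 3`, `n = r * k`, the kernel type of `h`
is `(k^(r-2), s, s, k-s, k-s)` and the pairs of image points identified by `S` are known. -/
theorem result (n : ℕ) (G : Subgroup (Equiv.Perm (Fin n))) (hG : Primitive G)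
    (f : Fin n → Fin n) (r : ℕ) (hr : IsLeast {m | ∃ a, Gen G f a ∧ rank a = m} r)
    (h1 : 1 < r) (h : Fin n → Fin n) (hh : Gen G f h) (hrank : rank h = r + 2) :
    3 ≤ r ∧ ∃ (k s : ℕ) (u v x y : Fin n), n = r * k ∧ 0 < s ∧ s < k ∧
      [u, v, x, y].Nodup ∧
      u ∈ univ.image h ∧ v ∈ univ.image h ∧ x ∈ univ.image h ∧ y ∈ univ.image h ∧
      fib h u = s ∧ fib h v = s ∧ fib h x = k - s ∧ fib h y = k - s ∧
      (∀ z ∈ univ.image h, z ∉ [u, v, x, y] →
        fib h z = k ∧ ∀ z' ∈ univ.image h, z' ≠ z → ¬ Joined G f z z') ∧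
      ¬ Joined G f u v ∧ ¬ Joined G f x y ∧
      (∃ t, Gen G f t ∧ rank t = r ∧ t u = t x ∧ t v = t y) ∧
      (∃ t, Gen G f t ∧ rank t = r ∧ t u = t y ∧ t v = t x) := by
  obtain ⟨⟨e₀, he, hre⟩, hlb⟩ := hr
  have hmin : ∀ a, Gen G f a → r ≤ rank a := fun a ha => hlb ⟨a, ha, rfl⟩
  obtain ⟨k, H⟩ := Hyp.exists_k hG h1 hmin he hre
  obtain ⟨h3, s, u, v, x, y, hs, hsk, hnd, hset, hu, hv, hx, hy, huv, hxy, ht, ht'⟩ :=
    H.two hh hrank
  have hmem : ∀ z ∈ small h k, z ∈ univ.image h := fun z hz => (mem_filter.mp hz).1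
  refine ⟨h3, k, s, u, v, x, y, H.nk, hs, hsk, hnd, hmem u (by simp [hset]),
    hmem v (by simp [hset]), hmem x (by simp [hset]), hmem y (by simp [hset]),
    hu, hv, hx, hy, ?_, huv, hxy, ht, ht'⟩
  intro z hz hzn
  have hzk : fib h z = k := by
    rcases (H.fib_le hh hz).lt_or_eq with h5 | h5
    · exfalso
      apply hzn
      have : z ∈ small h k := mem_filter.mpr ⟨hz, h5⟩
      rw [hset] at this
      simpa using this
    · exact h5
  exact ⟨hzk, fun z' hz' hne => H.full_not_joined hh (mem_filter.mpr ⟨hz, hzk⟩) hz' hne⟩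

end Pool.Agent.Results.MP_338784_al.RankPlusTwo
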